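import Mathlib
import Pool.Prelude.Def_F_c31e40fa
import Pool.Agent.X151.MK.Level
import Pool.Agent.X151.MK.Log
import Pool.Agent.X151.MB.Bloch

/-!
# The distance to hyperbolicity and the divided differences of the velocity of the escaping points

Let `V(z) = - ∑_{k ≥ 1} 1 / (f_c^k)'(z)` be the velocity of the escaping point `z` of `z ^ n + c`
(with a fixed Böttcher coordinate, with respect to `c`), and `K` the filled Julia set. For every `c`
in the Multibrot set, the divided differences of `V` satisfy a bilinear inequality with the distance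
`d` of `c` to the parameters with an attracting cycle on one side and the Cauchy kernels on `K` on
the other side. In particular `d |V'(z)| ≤ log (1 + area(K) / (π dist(z, K)²))`.
-/

set_option autoImplicit false

open Filter Topology Metric MeasureTheory

namespace Pool.Agent.Results.MP_c35c17_an.BilinearArea

/-- The map `z ↦ z ^ n + c`. -/
def f (n : ℕ) (c : ℂ) : ℂ → ℂ := fun z => z ^ n + c

/-- The parameters `c` for which `z ^ n + c` has an attracting cycle. -/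
def hyp (n : ℕ) : Set ℂ := {c | ∃ m z, N62a1eb23.IsAttractingCycle (f n c) m z}

/-- The filled Julia set. -/
def K (n : ℕ) (c : ℂ) : Set ℂ :=
  {x | ¬ Tendsto (fun k => (f n c)^[k] x) atTop (Bornology.cobounded ℂ)}

/-- The velocity of the escaping points. The term of order `0` of the sum is `1`, so that this is
`- ∑_{k ≥ 1} 1 / (f_c^k)'(z)`. -/
noncomputable def V (n : ℕ) (c z : ℂ) : ℂ := 1 - ∑' k : ℕ, (deriv (f n c)^[k] z)⁻¹

/-- The logarithmic size of `z`, seen from the filled Julia set. -/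
noncomputable def L (n : ℕ) (c z : ℂ) : ℝ :=
  Real.log (1 + volume.real (K n c) / (Real.pi * infDist z (K n c) ^ 2))

theorem V_eq (n : ℕ) (c : ℂ) : V n c = Pool.Agent.X151.MU.V n c := by
  funext z
  have hP : ∀ k, deriv (f n c)^[k] z = Pool.Agent.W746.LD.P n c z k := fun k =>
    (Pool.Agent.W746.LD.hasDerivAt_orb z k).deriv
  unfold V Pool.Agent.X151.MU.V
  simp only [hP]

theorem ball_sub {n : ℕ} (hn : 2 ≤ n) {c : ℂ} (hc : c ∈ N62a1eb23.multibrotSet n) :
    ball c (infDist c (hyp n)) ⊆ N62a1eb23.multibrotSet n := by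
  rcases (infDist_nonneg (x := c) (s := hyp n)).eq_or_lt with h0 | h0
  · rw [← h0, ball_zero]
    exact Set.empty_subset _
  · refine Pool.Agent.H713R2.AR.ball_subset hn h0 hc ?_
    intro t ht hcyc
    have h1 : infDist c (hyp n) ≤ dist c t := infDist_le_dist_of_mem hcyc
    rw [mem_ball, dist_comm] at ht
    linarith

theorem ball_sub_compl {n : ℕ} {c : ℂ} :
    ball c (infDist c (N62a1eb23.multibrotSet n)ᶜ) ⊆ N62a1eb23.multibrotSet n := by
  intro x hx
  by_contra hcon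
  have h3 : infDist c (N62a1eb23.multibrotSet n)ᶜ ≤ dist c x := infDist_le_dist_of_mem hcon
  rw [mem_ball, dist_comm] at hx
  linarith

theorem isCompact_K {n : ℕ} (hn : 2 ≤ n) {c : ℂ} (hc : c ∈ N62a1eb23.multibrotSet n) :
    IsCompact (K n c) := by
  have hc2 : ‖c‖ ≤ 2 := Pool.Agent.X151.MU.norm_le_two_of_sub hn hc
  have h1 : IsClosed (K n c) := Pool.Agent.X151.MB.isClosed_KK hn hc2
  refine (Pool.Agent.H713R2.AR.isCompact_EE hn hc2 0).of_isClosed_subset h1 ?_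
  have h2 : K n c = ⋂ j, Pool.Agent.H713R2.AR.EE n c j :=
    (Pool.Agent.H713R2.AR.iInter_EE hn hc2).symm
  rw [h2]
  exact Set.iInter_subset _ 0

theorem zero_mem_K {n : ℕ} (hn : 2 ≤ n) {c : ℂ} (hc : c ∈ N62a1eb23.multibrotSet n) :
    (0 : ℂ) ∈ K n c := by
  intro h
  exact Pool.Agent.X151.MU.esc_ne_zero hn hc (b := 0) h 0 rfl

theorem of_ball {n : ℕ} (hn : 2 ≤ n) {c : ℂ} {r : ℝ} (hr : 0 ≤ r)
    (hsub : ball c r ⊆ N62a1eb23.multibrotSet n) (m l : ℕ) (a z : Fin m → ℂ) (b w : Fin l → ℂ)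
    (hz : ∀ i, z i ∈ (K n c)ᶜ) (hw : ∀ k, w k ∈ (K n c)ᶜ) :
    r ^ 2 * ‖∑ i, ∑ k, a i * b k * dslope (V n c) (w k) (z i)‖ ^ 2 ≤
      (1 / Real.pi * ∫ s in K n c, ‖∑ i, a i / (z i - s)‖ ^ 2) *
      (1 / Real.pi * ∫ s in K n c, ‖∑ k, b k / (w k - s)‖ ^ 2) := by
  rcases hr.eq_or_lt with h0 | h0
  · rw [← h0, zero_pow (by norm_num), zero_mul]
    have hpi := Real.pi_pos
    have h1 : 0 ≤ ∫ s in K n c, ‖∑ i, a i / (z i - s)‖ ^ 2 :=
      integral_nonneg fun s => by positivity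
    have h2 : 0 ≤ ∫ s in K n c, ‖∑ k, b k / (w k - s)‖ ^ 2 :=
      integral_nonneg fun s => by positivity
    positivity
  · rw [V_eq]
    exact Pool.Agent.X151.MK.kernel_ball hn h0 hsub Finset.univ Finset.univ a z b w
      (fun i _ => not_not.mp (hz i)) (fun k _ => not_not.mp (hw k))

theorem int_le {n : ℕ} (hn : 2 ≤ n) {c : ℂ} (hc : c ∈ N62a1eb23.multibrotSet n) {z : ℂ}
    (hz : z ∈ (K n c)ᶜ) :
    1 / Real.pi * ∫ s in K n c, ‖(1 : ℂ) / (z - s)‖ ^ 2 ≤ L n c z := by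
  have hK := isCompact_K hn hc
  have hne : (K n c).Nonempty := ⟨0, zero_mem_K hn hc⟩
  have hpos : 0 < infDist z (K n c) :=
    (hK.isClosed.notMem_iff_infDist_pos hne).mp hz
  have h1 := Pool.Agent.X151.MK.log_bound hK.isClosed.measurableSet hK.measure_lt_top.ne
    (z := z) hpos (fun s hs => by rw [← dist_eq_norm]; exact infDist_le_dist_of_mem hs)
  have h2 : (fun s : ℂ => ‖(1 : ℂ) / (z - s)‖ ^ 2) = fun s => (‖z - s‖ ^ 2)⁻¹ := by
    funext s
    rw [norm_div, norm_one, div_pow, one_pow, one_div]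
  rw [h2, one_div, inv_mul_le_iff₀ Real.pi_pos]
  exact h1

theorem L_nonneg (n : ℕ) (c z : ℂ) : 0 ≤ L n c z := by
  apply Real.log_nonneg
  have h1 : 0 ≤ volume.real (K n c) / (Real.pi * infDist z (K n c) ^ 2) :=
    div_nonneg measureReal_nonneg (mul_nonneg Real.pi_pos.le (sq_nonneg _))
  linarith

theorem two_pt {n : ℕ} (hn : 2 ≤ n) {c : ℂ} (hc : c ∈ N62a1eb23.multibrotSet n) {r : ℝ}
    (hr : 0 ≤ r) (hsub : ball c r ⊆ N62a1eb23.multibrotSet n) {z w : ℂ}
    (hz : z ∈ (K n c)ᶜ) (hw : w ∈ (K n c)ᶜ) :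
    r ^ 2 * ‖dslope (V n c) w z‖ ^ 2 ≤ L n c z * L n c w := by
  have h1 := of_ball hn hr hsub 1 1 (fun _ => 1) (fun _ => z) (fun _ => 1) (fun _ => w)
    (fun _ => hz) (fun _ => hw)
  simp only [Finset.univ_unique, Finset.sum_const, Finset.card_singleton, one_smul, one_mul] at h1
  refine h1.trans ?_
  apply mul_le_mul (int_le hn hc hz) (int_le hn hc hw) _ (L_nonneg n c z)
  have hpi := Real.pi_pos
  have h2 : 0 ≤ ∫ s in K n c, ‖(1 : ℂ) / (w - s)‖ ^ 2 := integral_nonneg fun s => by positivity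
  positivity

theorem one_pt {n : ℕ} (hn : 2 ≤ n) {c : ℂ} (hc : c ∈ N62a1eb23.multibrotSet n) {r : ℝ}
    (hr : 0 ≤ r) (hsub : ball c r ⊆ N62a1eb23.multibrotSet n) {z : ℂ} (hz : z ∈ (K n c)ᶜ) :
    r * ‖deriv (V n c) z‖ ≤ L n c z := by
  have h1 := two_pt hn hc hr hsub hz hz
  rw [dslope_same] at h1
  apply le_of_sq_le_sq _ (L_nonneg n c z)
  rw [mul_pow]
  linarith [sq (L n c z)]

theorem diff_pt {n : ℕ} (hn : 2 ≤ n) {c : ℂ} (hc : c ∈ N62a1eb23.multibrotSet n) {r : ℝ}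
    (hr : 0 ≤ r) (hsub : ball c r ⊆ N62a1eb23.multibrotSet n) {z w : ℂ}
    (hz : z ∈ (K n c)ᶜ) (hw : w ∈ (K n c)ᶜ) :
    r ^ 2 * ‖V n c z - V n c w‖ ^ 2 ≤ ‖z - w‖ ^ 2 * (L n c z * L n c w) := by
  by_cases h : z = w
  · rw [h, sub_self, norm_zero]
    simp
  · have h1 := two_pt hn hc hr hsub hz hw
    rw [dslope_of_ne _ h, slope_def_field, norm_div, div_pow] at h1
    have h2 : 0 < ‖z - w‖ ^ 2 := by
      have := norm_pos_iff.mpr (sub_ne_zero.mpr h)
      positivity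
    rw [mul_div_assoc', div_le_iff₀ h2] at h1
    linarith

theorem result (n : ℕ) (hn : 2 ≤ n) (c : ℂ) (hc : c ∈ N62a1eb23.multibrotSet n) :
    -- the series of the velocities converges absolutely outside of the filled Julia set, to a
    -- holomorphic function
    (∀ z ∈ (K n c)ᶜ, Summable fun k : ℕ => ‖(deriv (f n c)^[k] z)⁻¹‖) ∧
    DifferentiableOn ℂ (V n c) (K n c)ᶜ ∧
    -- the filled Julia set is compact and contains `0`
    IsCompact (K n c) ∧ (0 : ℂ) ∈ K n c ∧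
    -- (1) the bilinear inequality for the divided differences of the velocity, for the distance to
    -- the parameters with an attracting cycle
    (∀ (m l : ℕ) (a z : Fin m → ℂ) (b w : Fin l → ℂ), (∀ i, z i ∈ (K n c)ᶜ) →
      (∀ k, w k ∈ (K n c)ᶜ) →
      infDist c (hyp n) ^ 2 * ‖∑ i, ∑ k, a i * b k * dslope (V n c) (w k) (z i)‖ ^ 2 ≤
        (1 / Real.pi * ∫ s in K n c, ‖∑ i, a i / (z i - s)‖ ^ 2) *
        (1 / Real.pi * ∫ s in K n c, ‖∑ k, b k / (w k - s)‖ ^ 2)) ∧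
    -- (2) two points, and one point
    (∀ z ∈ (K n c)ᶜ, ∀ w ∈ (K n c)ᶜ, infDist c (hyp n) ^ 2 * ‖V n c z - V n c w‖ ^ 2 ≤
      ‖z - w‖ ^ 2 * (L n c z * L n c w)) ∧
    (∀ z ∈ (K n c)ᶜ, infDist c (hyp n) * ‖deriv (V n c) z‖ ≤ L n c z) ∧
    -- (3) the same for the distance to the complement of the Multibrot set
    (∀ (m l : ℕ) (a z : Fin m → ℂ) (b w : Fin l → ℂ), (∀ i, z i ∈ (K n c)ᶜ) →
      (∀ k, w k ∈ (K n c)ᶜ) →
      infDist c (N62a1eb23.multibrotSet n)ᶜ ^ 2 *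
          ‖∑ i, ∑ k, a i * b k * dslope (V n c) (w k) (z i)‖ ^ 2 ≤
        (1 / Real.pi * ∫ s in K n c, ‖∑ i, a i / (z i - s)‖ ^ 2) *
        (1 / Real.pi * ∫ s in K n c, ‖∑ k, b k / (w k - s)‖ ^ 2)) ∧
    (∀ z ∈ (K n c)ᶜ, ∀ w ∈ (K n c)ᶜ,
      infDist c (N62a1eb23.multibrotSet n)ᶜ ^ 2 * ‖V n c z - V n c w‖ ^ 2 ≤
        ‖z - w‖ ^ 2 * (L n c z * L n c w)) ∧
    (∀ z ∈ (K n c)ᶜ, infDist c (N62a1eb23.multibrotSet n)ᶜ * ‖deriv (V n c) z‖ ≤ L n c z) ∧
    -- (4) a criterion for the density of hyperbolicity at `c`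
    ((∀ M : ℝ, ∃ z ∈ (K n c)ᶜ, M * L n c z < ‖deriv (V n c) z‖) → c ∈ closure (hyp n)) := by
  refine ⟨?_, ?_, isCompact_K hn hc, zero_mem_K hn hc, ?_, ?_, ?_, ?_, ?_, ?_, ?_⟩
  · intro z hz
    have hP : ∀ k, deriv (f n c)^[k] z = Pool.Agent.W746.LD.P n c z k := fun k =>
      (Pool.Agent.W746.LD.hasDerivAt_orb z k).deriv
    simp only [hP]
    exact Pool.Agent.X151.MU.summable_esc hn (not_not.mp hz)
  · intro z hz
    rw [V_eq]
    exact (Pool.Agent.X151.MD.deriv_V hn hc (not_not.mp hz)).1.differentiableWithinAt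
  · exact fun m l a z b w hz hw => of_ball hn infDist_nonneg (ball_sub hn hc) m l a z b w hz hw
  · exact fun z hz w hw => diff_pt hn hc infDist_nonneg (ball_sub hn hc) hz hw
  · exact fun z hz => one_pt hn hc infDist_nonneg (ball_sub hn hc) hz
  · exact fun m l a z b w hz hw => of_ball hn infDist_nonneg ball_sub_compl m l a z b w hz hw
  · exact fun z hz w hw => diff_pt hn hc infDist_nonneg ball_sub_compl hz hw
  · exact fun z hz => one_pt hn hc infDist_nonneg ball_sub_compl hz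
  · intro h
    have hne : (hyp n).Nonempty := ⟨0, Pool.Agent.X151.MU.zero_mem_Hy hn⟩
    rw [mem_closure_iff_infDist_zero hne]
    by_contra hcon
    have hpos : 0 < infDist c (hyp n) := lt_of_le_of_ne infDist_nonneg (Ne.symm hcon)
    obtain ⟨z, hz, h2⟩ := h (1 / infDist c (hyp n))
    have h3 := one_pt hn hc infDist_nonneg (ball_sub hn hc) hz
    rw [one_div, inv_mul_lt_iff₀ hpos] at h2
    linarith

end Pool.Agent.Results.MP_c35c17_an.BilinearArea
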