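import Mathlib
import Pool.Prelude.Def_F_c31e40fa
import Pool.Agent.X151.MR.Main

/-!
# The conformal radius of the non-hyperbolic components of the Multibrot sets

Let `f (z) = z ^ n + c`, `n ≥ 2`, let `c` be in the Multibrot set `M_n`, and suppose that the filled Julia set `K` of
`f` has no interior. Let `λ (c)` be the infimum of `∫_K |p|` over the polynomials `p` with `L (p) = 1`, where `L` is
the functional on polynomials given by the transfer operator of `f`. We show that `(n / π) λ (c)` is the maximum of
`|g'(0)|` over the holomorphic maps `g` from the unit disc to `M_n` with `g 0 = c`, and that `c` is in the closure of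
the parameters with an attracting cycle if and only if `λ (c) = 0`.
-/

set_option autoImplicit false

open Filter Topology Metric MeasureTheory Set

namespace Pool.Agent.Results.MP_c35c17_an.ConformalRadius

open Pool.Agent.X151.LF

/-- The parameters `c` for which `z ^ n + c` has an attracting cycle. -/
def hyp (n : ℕ) : Set ℂ := {c | ∃ m z, N62a1eb23.IsAttractingCycle (f n c) m z}

/-- **The exact value of the conformal radius.** -/
theorem result (n : ℕ) (hn : 2 ≤ n) (c : ℂ) (hc : c ∈ N62a1eb23.multibrotSet n)
    (hint : interior (K n c) = ∅) :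
    -- the largest derivative of a holomorphic disc in the Multibrot set
    IsGreatest {r : ℝ | ∃ g : ℂ → ℂ, DifferentiableOn ℂ g (ball 0 1) ∧
      MapsTo g (ball 0 1) (N62a1eb23.multibrotSet n) ∧ g 0 = c ∧ ‖deriv g 0‖ = r}
      (n / Real.pi * lam n c) ∧
    -- the criterion for the density of hyperbolicity at `c`
    (c ∈ closure (hyp n) ↔ lam n c = 0) := by
  have hc0 : (0 : ℂ) ∈ K n c := (multi_iff hn).1 hc
  have hpi := Real.pi_pos
  refine ⟨⟨?_, ?_⟩, fun h => ?_, fun h => ?_⟩
  · obtain ⟨g, h1, h2, h3, h4⟩ := Pool.Agent.X151.MR.exists_disc hn hc0 hint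
    exact ⟨g, h1, fun t ht => (multi_iff hn).2 (h2 t ht), h3, h4⟩
  · rintro r ⟨g, h1, h2, h3, rfl⟩
    have h4 := Pool.Agent.X151.MR.disc_lam hn hint h1 (fun t ht => (multi_iff hn).1 (h2 ht)) h3
    rw [div_mul_eq_mul_div, le_div_iff₀ hpi, mul_comm]
    exact h4
  · by_contra hne
    have h0 : 0 < lam n c := lt_of_le_of_ne (lam_nonneg n c) (Ne.symm hne)
    have h1 := Pool.Agent.X151.MR.no_attr_near hn hint h0
    rw [mem_closure_iff_frequently] at h
    exact h h1
  · exact Pool.Agent.X151.MR.closure_of_lam hn hc0 hint h

end Pool.Agent.Results.MP_c35c17_an.ConformalRadius
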