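import Mathlib
import Pool.Prelude.Def_F_c31e40fa
import Pool.Agent.X151.MU.Six

/-!
# The distance to hyperbolicity and the velocities of the critical orbit, of the periodic points and
of the escaping points

For a parameter `c` of the Multibrot set of power `n` we consider the points of the plane which can
be followed when `c` moves: the critical point `0` (velocity `0`), the iterates of the critical value
(velocity `D_N = d/dc f_c^N(c)`), the periodic points (velocity given by the implicit function
theorem) and the escaping points `x` (velocity `- ∑_{k ≥ 1} 1 / (f_c^k)'(x)`: the velocity of the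
point with a given Böttcher coordinate). With one absolute constant `C` the distance of `c` to the
parameters with an attracting cycle is at most
`C |x - y| (1 + |log |x - y||) / |v - w|` for all pairs of such points `x, y` with velocities `v, w`.
In particular, at every return of the critical orbit the derivative `D_N` is close to `1`, unless
hyperbolic parameters are near.
-/

set_option autoImplicit false

open Filter Topology Metric

namespace Pool.Agent.Results.MP_c35c17_an.LogLipschitzMotion

/-- The map `z ↦ z ^ n + c`. -/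
def f (n : ℕ) (c : ℂ) : ℂ → ℂ := fun z => z ^ n + c

/-- The parameters `c` for which `z ^ n + c` has an attracting cycle. -/
def hyp (n : ℕ) : Set ℂ := {c | ∃ m z, N62a1eb23.IsAttractingCycle (f n c) m z}

/-- The orbit of `x` escapes to infinity. -/
def Escapes (n : ℕ) (c x : ℂ) : Prop :=
  Tendsto (fun k => (f n c)^[k] x) atTop (Bornology.cobounded ℂ)

/-- `x` is the critical point, an iterate of the critical value, a periodic point, or an escaping
point (in the disc of radius `4`), and `v` is its velocity with respect to the parameter. -/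
def Moving (n : ℕ) (c x v : ℂ) : Prop :=
  -- the critical point does not move
  (x = 0 ∧ v = 0) ∨
  -- an iterate of the critical value
  (∃ N : ℕ, x = (f n c)^[N] c ∧ v = deriv (fun a => (f n a)^[N] a) c) ∨
  -- a periodic point: `v` is the derivative of the implicit function
  (∃ p : ℕ, 1 ≤ p ∧ (f n c)^[p] x = x ∧
    v = deriv (fun a => (f n a)^[p] x) c / (1 - deriv (f n c)^[p] x)) ∨
  -- an escaping point: `v` is the velocity of the point with the same Böttcher coordinate
  (Escapes n c x ∧ ‖x‖ ≤ 4 ∧ v = -∑' k : ℕ, (deriv (f n c)^[k + 1] x)⁻¹)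

theorem conv {n : ℕ} (hn : 2 ≤ n) {c : ℂ}
    (h0 : 0 < infDist c (hyp n)) {x v : ℂ} (h : Moving n c x v) :
    Pool.Agent.X151.MU.Mv n c x v ∨ Pool.Agent.X151.MU.Pe n c x v := by
  have hno := Pool.Agent.X151.MU.no_cycle (n := n) h0
  rcases h with h | ⟨N, h1, h2⟩ | ⟨p, hp, h1, h2⟩ | ⟨h1, h2, h3⟩
  · exact Or.inl (Or.inl h)
  · refine Or.inl (Or.inr (Or.inl ⟨N, h1, ?_⟩))
    rw [h2]
    exact (Pool.Agent.TH363.QI.hasDerivAt_D n c N).deriv
  · refine Or.inr ⟨p, hp, h1, ?_⟩
    have hx : ∀ i, Pool.Agent.W746.LD.orb n c x i ≠ 0 :=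
      Pool.Agent.X151.MU.per_ne_zero hn hno hp h1
    have h3 : deriv (f n c)^[p] x = Pool.Agent.W746.LD.P n c x p :=
      (Pool.Agent.W746.LD.hasDerivAt_orb x p).deriv
    have h4 := (Pool.Agent.X151.MU.hasDerivAt_moving (hasDerivAt_const c x) rfl p fun i _ =>
      Pool.Agent.W746.LD.P_ne_zero hn fun m _ => hx m).deriv
    rw [zero_add] at h4
    rw [h2, h3]
    congr 1
  · refine Or.inl (Or.inr (Or.inr ⟨h1, h2, ?_⟩))
    have h4 : ∀ k, deriv (f n c)^[k] x = Pool.Agent.W746.LD.P n c x k := fun k =>
      (Pool.Agent.W746.LD.hasDerivAt_orb x k).deriv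
    have hs := (Pool.Agent.X151.MU.summable_esc hn h1).of_norm
    rw [h3, hs.tsum_eq_zero_add, Pool.Agent.W746.LD.P_zero, inv_one]
    simp only [h4]
    ring

/-- Velocities and the distance to the parameters with an attracting cycle, with an absolute
constant. -/
theorem result : ∃ C : ℝ, 0 < C ∧ ∀ n : ℕ, 2 ≤ n → ∀ c ∈ N62a1eb23.multibrotSet n,
    -- the series which define the velocities of the escaping points converge absolutely
    (∀ x, Escapes n c x → Summable fun k : ℕ => ‖(deriv (f n c)^[k + 1] x)⁻¹‖) ∧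
    -- (1) all pairs of moving points
    (∀ x v y w : ℂ, Moving n c x v → Moving n c y w →
      infDist c (hyp n) * ‖v - w‖ ≤ C * ‖x - y‖ * (1 + |Real.log ‖x - y‖|)) ∧
    -- (2) the derivative with respect to the parameter at the returns of the critical value
    (∀ N : ℕ, infDist c (hyp n) * ‖deriv (fun a => (f n a)^[N] a) c - 1‖ ≤
      C * ‖(f n c)^[N] c - c‖ * (1 + |Real.log ‖(f n c)^[N] c - c‖|)) ∧
    -- (3) a criterion for the density of hyperbolicity at `c`
    ((∀ K : ℝ, ∃ x v y w : ℂ, Moving n c x v ∧ Moving n c y w ∧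
      K * ‖x - y‖ * (1 + |Real.log ‖x - y‖|) < ‖v - w‖) → c ∈ closure (hyp n)) := by
  have hC1 := Pool.Agent.TH363.QI.C₁_nonneg
  set C : ℝ := 4 * Pool.Agent.TH363.QI.C₁ + 24 with hC
  have hC0 : 0 < C := by positivity
  refine ⟨C, hC0, ?_⟩
  intro n hn c hc
  have main : ∀ x v y w : ℂ, Moving n c x v → Moving n c y w →
      infDist c (hyp n) * ‖v - w‖ ≤ C * ‖x - y‖ * (1 + |Real.log ‖x - y‖|) := by
    intro x v y w hx hy
    exact Pool.Agent.X151.MU.full_infDist hn hc (fun h => conv hn h hx) (fun h => conv hn h hy)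
  refine ⟨?_, main, ?_, ?_⟩
  · intro x hx
    have h4 : ∀ k, deriv (f n c)^[k] x = Pool.Agent.W746.LD.P n c x k := fun k =>
      (Pool.Agent.W746.LD.hasDerivAt_orb x k).deriv
    simp only [h4]
    exact (summable_nat_add_iff 1).mpr (Pool.Agent.X151.MU.summable_esc hn hx)
  · intro N
    refine main _ _ c 1 (Or.inr (Or.inl ⟨N, rfl, rfl⟩)) (Or.inr (Or.inl ⟨0, rfl, ?_⟩))
    exact ((hasDerivAt_id c).deriv).symm
  · intro h
    have hne : (hyp n).Nonempty := ⟨0, Pool.Agent.X151.MU.zero_mem_Hy hn⟩
    rw [mem_closure_iff_infDist_zero hne]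
    by_contra hcon
    have hpos : 0 < infDist c (hyp n) := lt_of_le_of_ne infDist_nonneg (Ne.symm hcon)
    obtain ⟨x, v, y, w, hx, hy, h1⟩ := h (C / infDist c (hyp n))
    have h2 := main x v y w hx hy
    have h3 : C / infDist c (hyp n) * ‖x - y‖ * (1 + |Real.log ‖x - y‖|) =
        C * ‖x - y‖ * (1 + |Real.log ‖x - y‖|) / infDist c (hyp n) := by ring
    rw [h3, div_lt_iff₀ hpos] at h1
    linarith

end Pool.Agent.Results.MP_c35c17_an.LogLipschitzMotion
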